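import Pool.Agent.Helper91.LN6.Braid

/-!
LN6: group identities about `delta`, `zeta`, `zeta'`, `gg` and the subgroup `H`.
-/

namespace LN6

namespace WSys

variable {k : ℕ} {Γ F : Type} [Group Γ] [MulAction Γ F]

namespace H1

theorem dl0 (W : WSys k Γ F) (hk : 5 ≤ k) : W.delta * W.s 0 = W.s 2 * W.delta := by
  have b0 := W.braid 0 (by omega)
  have b1 := W.braid 1 (by omega)
  simp only [zero_add, show (1 : ℕ) + 1 = 2 from rfl] at b0 b1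
  unfold delta
  calc W.s 1 * W.s 2 * W.s 0 * W.s 1 * W.s 0 = W.s 1 * W.s 2 * (W.s 0 * W.s 1 * W.s 0) := by group
    _ = W.s 1 * W.s 2 * (W.s 1 * W.s 0 * W.s 1) := by rw [b0]
    _ = (W.s 1 * W.s 2 * W.s 1) * (W.s 0 * W.s 1) := by group
    _ = (W.s 2 * W.s 1 * W.s 2) * (W.s 0 * W.s 1) := by rw [b1]
    _ = _ := by group

theorem dl2 (W : WSys k Γ F) (hk : 5 ≤ k) : W.delta * W.s 2 = W.s 0 * W.delta := by
  have b0 := W.braid 0 (by omega)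
  have b1 := W.braid 1 (by omega)
  have c := W.comm 0 2 le_rfl (by omega)
  simp only [zero_add, show (1 : ℕ) + 1 = 2 from rfl] at b0 b1
  unfold delta
  calc W.s 1 * W.s 2 * W.s 0 * W.s 1 * W.s 2 = W.s 1 * (W.s 2 * W.s 0) * W.s 1 * W.s 2 := by group
    _ = W.s 1 * (W.s 0 * W.s 2) * W.s 1 * W.s 2 := by rw [c]
    _ = W.s 1 * W.s 0 * (W.s 2 * W.s 1 * W.s 2) := by group
    _ = W.s 1 * W.s 0 * (W.s 1 * W.s 2 * W.s 1) := by rw [b1]
    _ = (W.s 1 * W.s 0 * W.s 1) * W.s 2 * W.s 1 := by group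
    _ = (W.s 0 * W.s 1 * W.s 0) * W.s 2 * W.s 1 := by rw [b0]
    _ = W.s 0 * W.s 1 * (W.s 0 * W.s 2) * W.s 1 := by group
    _ = W.s 0 * W.s 1 * (W.s 2 * W.s 0) * W.s 1 := by rw [c]
    _ = _ := by group

/-- `delta * s 3 = (gg * s 1 * gg⁻¹) * delta`, in the form `gg⁻¹ * delta * s 3 = s 1 * (gg⁻¹ * delta)`. -/
theorem dl3 (W : WSys k Γ F) (hk : 5 ≤ k) :
    W.gg⁻¹ * W.delta * W.s 3 = W.s 1 * (W.gg⁻¹ * W.delta) := by
  have b1 := W.braid 1 (by omega)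
  have b2 := W.braid 2 (by omega)
  have c03 := W.comm 0 3 (by omega) (by omega)
  have c13 := W.comm 1 3 (by omega) (by omega)
  simp only [show (1 : ℕ) + 1 = 2 from rfl, show (2 : ℕ) + 1 = 3 from rfl] at b1 b2
  unfold delta gg
  rw [inv_inv]
  calc W.s 2 * W.s 3 * (W.s 1 * W.s 2 * W.s 0 * W.s 1) * W.s 3
      = W.s 2 * (W.s 3 * W.s 1) * W.s 2 * W.s 0 * (W.s 1 * W.s 3) := by group
    _ = W.s 2 * (W.s 1 * W.s 3) * W.s 2 * W.s 0 * (W.s 3 * W.s 1) := by rw [c13]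
    _ = W.s 2 * W.s 1 * W.s 3 * W.s 2 * (W.s 0 * W.s 3) * W.s 1 := by group
    _ = W.s 2 * W.s 1 * W.s 3 * W.s 2 * (W.s 3 * W.s 0) * W.s 1 := by rw [c03]
    _ = W.s 2 * W.s 1 * (W.s 3 * W.s 2 * W.s 3) * W.s 0 * W.s 1 := by group
    _ = W.s 2 * W.s 1 * (W.s 2 * W.s 3 * W.s 2) * W.s 0 * W.s 1 := by rw [b2]
    _ = (W.s 2 * W.s 1 * W.s 2) * W.s 3 * W.s 2 * W.s 0 * W.s 1 := by group
    _ = (W.s 1 * W.s 2 * W.s 1) * W.s 3 * W.s 2 * W.s 0 * W.s 1 := by rw [b1]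
    _ = W.s 1 * W.s 2 * (W.s 1 * W.s 3) * W.s 2 * W.s 0 * W.s 1 := by group
    _ = W.s 1 * W.s 2 * (W.s 3 * W.s 1) * W.s 2 * W.s 0 * W.s 1 := by rw [c13]
    _ = _ := by group

theorem gg0 (W : WSys k Γ F) (hk : 5 ≤ k) : W.gg⁻¹ * W.s 0 = W.s 0 * W.gg⁻¹ := by
  have c02 := W.comm 0 2 (by omega) (by omega)
  have c03 := W.comm 0 3 (by omega) (by omega)
  unfold gg
  rw [inv_inv]
  calc W.s 2 * W.s 3 * W.s 0 = W.s 2 * (W.s 3 * W.s 0) := by group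
    _ = W.s 2 * (W.s 0 * W.s 3) := by rw [c03]
    _ = (W.s 2 * W.s 0) * W.s 3 := by group
    _ = (W.s 0 * W.s 2) * W.s 3 := by rw [c02]
    _ = _ := by group

/-- `delta * zeta = zeta' * delta`. -/
theorem dlz (W : WSys k Γ F) (hk : 5 ≤ k) : W.delta * W.zeta = W.zeta' * W.delta := by
  have d3 := dl3 W hk
  have d2 := dl2 W hk
  have g0 := gg0 W hk
  have e3 : W.delta * W.s 3 = W.gg * W.s 1 * (W.gg⁻¹ * W.delta) := by
    rw [mul_assoc, ← d3]; group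
  unfold zeta zeta'
  have hl : W.lam 2 = W.s 1 * (W.s 0 * W.s 0) * W.s 1 := rfl
  rw [hl]
  calc W.delta * (W.s 3 * W.s 2 * W.s 2 * W.s 3) = (W.delta * W.s 3) * W.s 2 * W.s 2 * W.s 3 := by group
    _ = (W.gg * W.s 1 * (W.gg⁻¹ * W.delta)) * W.s 2 * W.s 2 * W.s 3 := by rw [e3]
    _ = W.gg * W.s 1 * W.gg⁻¹ * (W.delta * W.s 2) * W.s 2 * W.s 3 := by group
    _ = W.gg * W.s 1 * W.gg⁻¹ * (W.s 0 * W.delta) * W.s 2 * W.s 3 := by rw [d2]
    _ = W.gg * W.s 1 * W.gg⁻¹ * W.s 0 * (W.delta * W.s 2) * W.s 3 := by group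
    _ = W.gg * W.s 1 * W.gg⁻¹ * W.s 0 * (W.s 0 * W.delta) * W.s 3 := by rw [d2]
    _ = W.gg * W.s 1 * (W.gg⁻¹ * W.s 0) * W.s 0 * (W.delta * W.s 3) := by group
    _ = W.gg * W.s 1 * (W.s 0 * W.gg⁻¹) * W.s 0 * (W.gg * W.s 1 * (W.gg⁻¹ * W.delta)) := by rw [g0, e3]
    _ = W.gg * W.s 1 * W.s 0 * (W.gg⁻¹ * W.s 0) * (W.gg * W.s 1 * (W.gg⁻¹ * W.delta)) := by group
    _ = W.gg * W.s 1 * W.s 0 * (W.s 0 * W.gg⁻¹) * (W.gg * W.s 1 * (W.gg⁻¹ * W.delta)) := by rw [g0]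
    _ = _ := by group

/-- `delta * delta * (s 0 * s 0 * (s 2 * s 2)) = T 4`. -/
theorem dlsq (W : WSys k Γ F) (hk : 5 ≤ k) :
    W.T 4 = W.s 0 * W.s 0 * (W.s 2 * W.s 2) * (W.delta * W.delta) := by
  have b0 := W.braid 0 (by omega)
  have b1 := W.braid 1 (by omega)
  have c := W.comm 0 2 le_rfl (by omega)
  simp only [zero_add, show (1 : ℕ) + 1 = 2 from rfl] at b0 b1
  have tB := W.lam_typeB 2 (by omega)
  have hT : W.T 4 = W.s 0 * W.s 0 * (W.lam 2 * W.s 2 * W.lam 2 * W.s 2) := by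
    show 1 * (W.s 0 * W.s 0) * W.lam 2 * (W.s 2 * W.lam 2 * W.s 2) = _
    group
  rw [hT, ← tB, mul_assoc (W.s 0 * W.s 0)]
  congr 1
  have key : W.lam 2 * W.s 2 * W.lam 2 = W.s 2 * (W.delta * W.delta) := by
    have hl : W.lam 2 = W.s 1 * (W.s 0 * W.s 0) * W.s 1 := rfl
    rw [hl]
    unfold delta
    have L : W.s 1 * (W.s 0 * W.s 0) * W.s 1 * W.s 2 * (W.s 1 * (W.s 0 * W.s 0) * W.s 1)
        = W.s 1 * W.s 0 * W.s 2 * (W.s 0 * W.s 1 * W.s 0) * W.s 2 * W.s 0 * W.s 1 := by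
      calc W.s 1 * (W.s 0 * W.s 0) * W.s 1 * W.s 2 * (W.s 1 * (W.s 0 * W.s 0) * W.s 1)
          = W.s 1 * (W.s 0 * W.s 0) * (W.s 1 * W.s 2 * W.s 1) * (W.s 0 * W.s 0) * W.s 1 := by group
        _ = W.s 1 * (W.s 0 * W.s 0) * (W.s 2 * W.s 1 * W.s 2) * (W.s 0 * W.s 0) * W.s 1 := by rw [b1]
        _ = W.s 1 * W.s 0 * (W.s 0 * W.s 2) * W.s 1 * (W.s 2 * W.s 0) * W.s 0 * W.s 1 := by group
        _ = W.s 1 * W.s 0 * (W.s 2 * W.s 0) * W.s 1 * (W.s 0 * W.s 2) * W.s 0 * W.s 1 := by rw [c]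
        _ = _ := by group
    have R : W.s 2 * (W.s 1 * W.s 2 * W.s 0 * W.s 1 * (W.s 1 * W.s 2 * W.s 0 * W.s 1))
        = W.s 1 * W.s 0 * W.s 2 * (W.s 1 * W.s 0 * W.s 1) * W.s 2 * W.s 0 * W.s 1 := by
      calc W.s 2 * (W.s 1 * W.s 2 * W.s 0 * W.s 1 * (W.s 1 * W.s 2 * W.s 0 * W.s 1))
          = (W.s 2 * W.s 1 * W.s 2) * W.s 0 * W.s 1 * W.s 1 * W.s 2 * W.s 0 * W.s 1 := by group
        _ = (W.s 1 * W.s 2 * W.s 1) * W.s 0 * W.s 1 * W.s 1 * W.s 2 * W.s 0 * W.s 1 := by rw [b1]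
        _ = W.s 1 * W.s 2 * (W.s 1 * W.s 0 * W.s 1) * W.s 1 * W.s 2 * W.s 0 * W.s 1 := by group
        _ = W.s 1 * W.s 2 * (W.s 0 * W.s 1 * W.s 0) * W.s 1 * W.s 2 * W.s 0 * W.s 1 := by rw [b0]
        _ = W.s 1 * (W.s 2 * W.s 0) * (W.s 1 * W.s 0 * W.s 1) * W.s 2 * W.s 0 * W.s 1 := by group
        _ = W.s 1 * (W.s 0 * W.s 2) * (W.s 1 * W.s 0 * W.s 1) * W.s 2 * W.s 0 * W.s 1 := by rw [c]
        _ = _ := by group
    rw [L, R, b0]
  calc W.s 2 * W.lam 2 * W.s 2 * W.lam 2 = W.s 2 * (W.lam 2 * W.s 2 * W.lam 2) := by group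
    _ = W.s 2 * (W.s 2 * (W.delta * W.delta)) := by rw [key]
    _ = _ := by group

/-- `zeta` commutes with `s 2`. -/
theorem z2 (W : WSys k Γ F) (hk : 5 ≤ k) : W.zeta * W.s 2 = W.s 2 * W.zeta := by
  have b2 := W.braid 2 (by omega)
  simp only [show (2 : ℕ) + 1 = 3 from rfl] at b2
  unfold zeta
  calc W.s 3 * W.s 2 * W.s 2 * W.s 3 * W.s 2 = W.s 3 * W.s 2 * (W.s 2 * W.s 3 * W.s 2) := by group
    _ = W.s 3 * W.s 2 * (W.s 3 * W.s 2 * W.s 3) := by rw [b2]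
    _ = (W.s 3 * W.s 2 * W.s 3) * W.s 2 * W.s 3 := by group
    _ = (W.s 2 * W.s 3 * W.s 2) * W.s 2 * W.s 3 := by rw [b2]
    _ = _ := by group

theorem z0 (W : WSys k Γ F) (hk : 5 ≤ k) : W.zeta * W.s 0 = W.s 0 * W.zeta := by
  have c02 : Commute (W.s 2) (W.s 0) := (W.commute_s 0 2 (by omega) (by omega)).symm
  have c03 : Commute (W.s 3) (W.s 0) := (W.commute_s 0 3 (by omega) (by omega)).symm
  exact (((c03.mul_left c02).mul_left c02).mul_left c03).eq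

theorem z'0 (W : WSys k Γ F) (hk : 5 ≤ k) : W.zeta' * W.s 0 = W.s 0 * W.zeta' := by
  have h1 : W.zeta' = W.delta * W.zeta * W.delta⁻¹ := by rw [dlz W hk]; group
  have h2 : W.s 0 = W.delta * W.s 2 * W.delta⁻¹ := by rw [dl2 W hk]; group
  have h3 := z2 W hk
  calc W.zeta' * W.s 0 = (W.delta * W.zeta * W.delta⁻¹) * (W.delta * W.s 2 * W.delta⁻¹) := by
        rw [← h1, ← h2]
    _ = W.delta * (W.zeta * W.s 2) * W.delta⁻¹ := by group
    _ = W.delta * (W.s 2 * W.zeta) * W.delta⁻¹ := by rw [h3]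
    _ = (W.delta * W.s 2 * W.delta⁻¹) * (W.delta * W.zeta * W.delta⁻¹) := by group
    _ = W.s 0 * W.zeta' := by rw [← h1, ← h2]

theorem z'2 (W : WSys k Γ F) (hk : 5 ≤ k) : W.zeta' * W.s 2 = W.s 2 * W.zeta' := by
  have h1 : W.zeta' = W.delta * W.zeta * W.delta⁻¹ := by rw [dlz W hk]; group
  have h2 : W.s 2 = W.delta * W.s 0 * W.delta⁻¹ := by rw [dl0 W hk]; group
  have h3 := z0 W hk
  calc W.zeta' * W.s 2 = (W.delta * W.zeta * W.delta⁻¹) * (W.delta * W.s 0 * W.delta⁻¹) := by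
        rw [← h1, ← h2]
    _ = W.delta * (W.zeta * W.s 0) * W.delta⁻¹ := by group
    _ = W.delta * (W.s 0 * W.zeta) * W.delta⁻¹ := by rw [h3]
    _ = (W.delta * W.s 0 * W.delta⁻¹) * (W.delta * W.zeta * W.delta⁻¹) := by group
    _ = W.s 2 * W.zeta' := by rw [← h1, ← h2]

/-! ### the subgroup `H` -/

theorem s0_mem_H (W : WSys k Γ F) : W.s 0 ∈ W.H := Subgroup.subset_closure (Or.inl (Or.inl rfl))
theorem s2_mem_H (W : WSys k Γ F) : W.s 2 ∈ W.H := Subgroup.subset_closure (Or.inl (Or.inr (Or.inl rfl)))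
theorem T4_mem_H (W : WSys k Γ F) : W.T 4 ∈ W.H :=
  Subgroup.subset_closure (Or.inl (Or.inr (Or.inr (Or.inl rfl))))
theorem z_mem_H (W : WSys k Γ F) : W.zeta ∈ W.H :=
  Subgroup.subset_closure (Or.inl (Or.inr (Or.inr (Or.inr (Or.inl rfl)))))
theorem z'_mem_H (W : WSys k Γ F) : W.zeta' ∈ W.H :=
  Subgroup.subset_closure (Or.inl (Or.inr (Or.inr (Or.inr (Or.inr rfl)))))
theorem s_mem_H (W : WSys k Γ F) {i : ℕ} (hi : 4 ≤ i) (hik : i + 1 < k) : W.s i ∈ W.H :=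
  Subgroup.subset_closure (Or.inr ⟨i, hi, hik, rfl⟩)

theorem H_induction (W : WSys k Γ F) {P : Γ → Prop} (h0 : P (W.s 0)) (h2 : P (W.s 2)) (h4 : P (W.T 4))
    (hz : P W.zeta) (hz' : P W.zeta') (hs : ∀ i, 4 ≤ i → i + 1 < k → P (W.s i)) (h1 : P 1)
    (hmul : ∀ x y, x ∈ W.H → y ∈ W.H → P x → P y → P (x * y)) (hinv : ∀ x, x ∈ W.H → P x → P x⁻¹) {g : Γ}
    (hg : g ∈ W.H) : P g := by
  refine Subgroup.closure_induction (p := fun g _ => P g) ?_ h1 (fun x y hx hy h h' => hmul x y hx hy h h')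
    (fun x hx h => hinv x hx h) hg
  rintro x ((rfl | rfl | rfl | rfl | rfl) | ⟨i, hi, hik, rfl⟩)
  · exact h0
  · exact h2
  · exact h4
  · exact hz
  · exact hz'
  · exact hs i hi hik

theorem gg_mem_L (W : WSys k Γ F) (hk : 5 ≤ k) : W.gg ∈ W.L :=
  inv_mem (mul_mem (W.s_mem_L (by omega) (by omega)) (W.s_mem_L (by omega) (by omega)))

theorem H_le_L (W : WSys k Γ F) (hk : 5 ≤ k) : W.H ≤ W.L := by
  intro g hg
  refine H_induction W (P := fun g => g ∈ W.L) W.s0_mem_L (W.s_mem_L le_rfl (by omega))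
    (W.T_mem_L 4 (by omega) (by omega)) ?_ ?_ (fun i hi hik => W.s_mem_L (by omega) hik) (one_mem _)
    (fun x y _ _ h h' => mul_mem h h') (fun x _ h => inv_mem h) hg
  · exact mul_mem (mul_mem (mul_mem (W.s_mem_L (by omega) (by omega)) (W.s_mem_L (by omega) (by omega)))
      (W.s_mem_L (by omega) (by omega))) (W.s_mem_L (by omega) (by omega))
  · exact mul_mem (mul_mem (gg_mem_L W hk) W.lam2_mem_L) (inv_mem (gg_mem_L W hk))

theorem H_commute_s0 (W : WSys k Γ F) (hk : 5 ≤ k) {g : Γ} (hg : g ∈ W.H) : Commute g (W.s 0) :=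
  W.L_commute_s0 (by omega) (H_le_L W hk hg)

theorem H_commute_s2 (W : WSys k Γ F) (hk : 5 ≤ k) {g : Γ} (hg : g ∈ W.H) : Commute g (W.s 2) :=
  H_induction W (P := fun g => Commute g (W.s 2)) (W.commute_s 0 2 (by omega) (by omega)) (Commute.refl _)
    (W.T_commute_near 4 (by omega) 2 (by omega)) (z2 W hk) (z'2 W hk)
    (fun i hi hik => (W.commute_s 2 i (by omega) hik).symm) (Commute.one_left _)
    (fun _ _ _ _ h h' => h.mul_left h') (fun _ _ h => h.inv_left) hg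

theorem delta_mem_B4 (W : WSys k Γ F) : W.delta ∈ W.Bm 4 :=
  mul_mem (mul_mem (mul_mem (W.s_mem_Bm (by omega)) (W.s_mem_Bm (by omega))) (W.s_mem_Bm (by omega)))
    (W.s_mem_Bm (by omega))

theorem dsq_mem_H (W : WSys k Γ F) (hk : 5 ≤ k) : W.delta * W.delta ∈ W.H := by
  have h := dlsq W hk
  have : W.delta * W.delta = (W.s 0 * W.s 0 * (W.s 2 * W.s 2))⁻¹ * W.T 4 := by rw [h]; group
  rw [this]
  exact mul_mem (inv_mem (mul_mem (mul_mem (s0_mem_H W) (s0_mem_H W)) (mul_mem (s2_mem_H W) (s2_mem_H W))))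
    (T4_mem_H W)

/-- `delta⁻¹ H delta ⊆ H`. -/
theorem H_delta (W : WSys k Γ F) (hk : 5 ≤ k) {g : Γ} (hg : g ∈ W.H) : W.delta⁻¹ * g * W.delta ∈ W.H := by
  have d0 := dl0 W hk
  have d2 := dl2 W hk
  have dz := dlz W hk
  refine H_induction W (P := fun g => W.delta⁻¹ * g * W.delta ∈ W.H) ?_ ?_ ?_ ?_ ?_ ?_ ?_ ?_ ?_ hg
  · rw [mul_assoc, ← d2, inv_mul_cancel_left]
    exact s2_mem_H W
  · rw [mul_assoc, ← d0, inv_mul_cancel_left]
    exact s0_mem_H W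
  · have hc : Commute W.delta (W.T 4) := W.Bm_commute_T (by omega) (delta_mem_B4 W)
    rw [mul_assoc, ← hc.eq, inv_mul_cancel_left]
    exact T4_mem_H W
  · have h1 : W.delta⁻¹ * W.zeta * W.delta =
        (W.delta * W.delta)⁻¹ * (W.delta * W.zeta * W.delta⁻¹) * (W.delta * W.delta) := by group
    have h2 : W.zeta' = W.delta * W.zeta * W.delta⁻¹ := by rw [dz]; group
    rw [h1, ← h2]
    exact mul_mem (mul_mem (inv_mem (dsq_mem_H W hk)) (z'_mem_H W)) (dsq_mem_H W hk)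
  · rw [mul_assoc, ← dz, inv_mul_cancel_left]
    exact z_mem_H W
  · intro i hi hik
    have hc : Commute W.delta (W.s i) :=
      W.commute_of_Bm (fun j hj => W.commute_s j i (by omega) hik) (delta_mem_B4 W)
    rw [mul_assoc, ← hc.eq, inv_mul_cancel_left]
    exact s_mem_H W hi hik
  · rw [mul_one, inv_mul_cancel]
    exact one_mem _
  · intro x y _ _ hx hy
    have : W.delta⁻¹ * (x * y) * W.delta = (W.delta⁻¹ * x * W.delta) * (W.delta⁻¹ * y * W.delta) := by group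
    rw [this]
    exact mul_mem hx hy
  · intro x _ hx
    have : W.delta⁻¹ * x⁻¹ * W.delta = (W.delta⁻¹ * x * W.delta)⁻¹ := by group
    rw [this]
    exact inv_mem hx

end H1

end WSys

end LN6
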