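import Pool.Agent.Helper1.LN6.NE
import Pool.Agent.Helper1.LN6.Del
import Pool.Agent.Helper32.LN6.Chi

/-!
LN6, leaf G9 (memo section 4): a nice class with label at least `4` is also a class of `s 2`.
-/

open scoped Classical
open Finset

namespace LN6

namespace WSys

variable {k : ℕ} {Γ F : Type} [Group Γ] [MulAction Γ F]

namespace H1

theorem v_smul' (W : WSys k Γ F) {g h h' : Γ} (hh : g * h = h' * g) {x y : F} (hR : W.R x y) (hne : x ≠ y) :
    W.v h' (g • x) (g • y) = W.v h x y := by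
  have : h' = g * h * g⁻¹ := by rw [hh]; group
  rw [this]
  exact W.v_conj h g x y hR hne

/-- `v (T 3) = v (T 2) + v (lam 2)`. -/
theorem v_lam2 (W : WSys k Γ F) (hk : 5 ≤ k) {x y : F} (hR : W.R x y) (hne : x ≠ y) :
    W.v (W.lam 2) x y = W.v (W.T 3) x y - 2 * W.v (W.s 0) x y := by
  have h : W.T 3 = W.T 2 * W.lam 2 := rfl
  have hc : W.T 2 * W.lam 2 = W.lam 2 * W.T 2 := (W.T_commute_lam 2 2 le_rfl (by omega)).eq
  rw [h, W.v_mul _ _ x y hR hne hc, v_T2 W hR hne]
  ring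

section
variable [Fintype F]

/-- orbit of a pair. -/
noncomputable def orb (S : Subgroup Γ) (x y : F) : Finset (F × F) :=
  univ.filter fun p => ∃ g ∈ S, p = (g • x, g • y)

theorem mem_orb {S : Subgroup Γ} {x y : F} {p : F × F} : p ∈ orb S x y ↔ ∃ g ∈ S, p = (g • x, g • y) := by
  simp [orb]

theorem smul_mem_orb {S : Subgroup Γ} {x y : F} {g : Γ} (hg : g ∈ S) {p : F × F} (hp : p ∈ orb S x y) :
    g • p ∈ orb S x y := by
  obtain ⟨h, hh, rfl⟩ := mem_orb.1 hp
  exact mem_orb.2 ⟨g * h, mul_mem hg hh, by simp [mul_smul]⟩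

theorem le_stb_orb (S : Subgroup Γ) (x y : F) : S ≤ Chi.stb (Γ := Γ) (orb S x y) :=
  fun _ hg _ hp => smul_mem_orb hg hp

theorem gd_orb {W : WSys k Γ F} (S : Subgroup Γ) {x y : F} (hR : W.R x y) (hn : x ≠ y) :
    Chi.Gd W (orb S x y) := by
  intro p hp
  obtain ⟨g, _, rfl⟩ := mem_orb.1 hp
  exact ⟨W.R_smul g hR, by simpa using hn⟩

theorem T_nonneg {W : WSys k Γ F} {b : ℝ} (A : W.Ax b) (m : ℕ) (h2 : 2 ≤ m) (hm : m ≤ k) {x y : F}
    (hR : W.R x y) (hne : x ≠ y) : 0 ≤ W.v (W.T m) x y := by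
  set O := orb (W.Bm m) x y with hO
  have hgd : Chi.Gd W O := gd_orb _ hR hne
  have h1 := Chi.chi_B hgd hm h2 (le_stb_orb _ x y) m (by omega) le_rfl
  have h3 : Chi.chi W O (W.T m) = O.card * W.v (W.T m) x y := by
    unfold Chi.chi
    rw [sum_congr rfl (g := fun _ => W.v (W.T m) x y)]
    · simp
    · intro p hp
      obtain ⟨g, hg, rfl⟩ := mem_orb.1 hp
      exact v_smul' W (W.Bm_commute_T hm hg).eq hR hne
  have h4 : 0 ≤ Chi.chi W O (W.s 0) :=
    sum_nonneg fun p hp => A.nonneg _ _ (hgd p hp).1 (hgd p hp).2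
  have hpos : (0 : ℝ) < O.card := by
    have : 0 < O.card := card_pos.2 ⟨(x, y), mem_orb.2 ⟨1, one_mem _, by simp⟩⟩
    exact_mod_cast this
  have h5 : (0 : ℝ) ≤ (m : ℝ) * ((m : ℝ) - 1) := by
    have : (2 : ℝ) ≤ m := by exact_mod_cast h2
    nlinarith
  rw [h3] at h1
  have h6 : 0 ≤ (O.card : ℝ) * W.v (W.T m) x y := by
    rw [h1]
    exact mul_nonneg h5 h4
  exact nonneg_of_mul_nonneg_right h6 hpos

end

theorem s_nonneg {W : WSys k Γ F} {b : ℝ} (A : W.Ax b) (i : ℕ) (hi : i + 1 < k) {x y : F}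
    (hR : W.R x y) (hne : x ≠ y) : 0 ≤ W.v (W.s i) x y := by
  obtain ⟨g, _, hg⟩ := W.s_conj_zero i hi
  have hh : g⁻¹ * W.s i = W.s 0 * g⁻¹ := by rw [hg]; group
  rw [← v_smul' W hh hR hne]
  exact A.nonneg _ _ (W.R_smul _ hR) (fun H => hne ((MulAction.injective _) H))

/-- `R (delta • x) (s 0 ^ 4 • x)`. -/
theorem R_delta (W : WSys k Γ F) (hk : 5 ≤ k) (x : F) :
    W.R (W.delta • x) ((W.s 0 * W.s 0 * W.s 0 * W.s 0) • x) := by
  unfold delta
  simp only [mul_smul]
  have h1 : W.R (W.s 1 • x) (W.s 0 • x) := W.R_s 1 x (by omega)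
  have h2 : W.R (W.s 0 • W.s 1 • x) (W.s 0 • W.s 0 • x) := W.R_smul _ h1
  have h3 : W.R (W.s 2 • W.s 0 • W.s 1 • x) (W.s 0 • W.s 0 • W.s 0 • x) :=
    W.R_trans (W.R_s 2 _ (by omega)) (W.R_smul _ h2)
  exact W.R_trans (W.R_s 1 _ (by omega)) (W.R_smul _ h3)

end H1

open H1 in
theorem G9_of [Fintype F] {W : WSys k Γ F} {b : ℝ} (A : W.Ax b) (hb : 0 < b) (l : F → ℕ) (hl : W.Lab b l)
    (hQ : W.SQ b 3) (hq3 : W.SQ3 b l) : W.SG9 l := by
  have hk : 5 ≤ k := A.k5
  have d0 := dl0 W hk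
  have d2 := dl2 W hk
  have d3 := dl3 W hk
  have dz := dlz W hk
  intro y hy hly
  obtain ⟨⟨hl1, hl2⟩, hleq, hlQ, hl4, hlE⟩ := hl y hy
  have hyB : y ∉ W.B (W.s 2) := fun H => by have := hl4.1 H; omega
  have hself : ∀ x : F, x ∈ W.cl (W.s 0) x := fun x => (mem_cl W).2 (E_refl W _ _)
  have hdich := hy.2 1 (one_mem _)
  rw [one_smul] at hdich
  have hiso : ∀ u ∈ W.cl (W.s 0) y, ∀ z, W.R u z → z ∉ W.cl (W.s 0) y → W.v (W.s 2) u z = 0 := by
    rcases hdich with H | H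
    · exact absurd (H y (hself y)) hyB
    · exact H.2
  have hsub : ∀ u ∈ W.cl (W.s 0) y, W.cl (W.s 2) u ⊆ W.cl (W.s 0) y := by
    intro u hu z hz
    by_contra H
    rcases (mem_cl W).1 hz with rfl | ⟨h1, h2⟩
    · exact H hu
    · rw [hiso u hu z h1 H] at h2
      exact lt_irrefl _ h2
  -- the second class
  set c : Γ := W.s 0 * W.s 0 * W.s 0 * W.s 0 with hc
  have hcL : c ∈ W.L := mul_mem (mul_mem (mul_mem W.s0_mem_L W.s0_mem_L) W.s0_mem_L) W.s0_mem_L
  set y0 : F := c⁻¹ • y with hy0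
  set y' : F := W.delta • y0 with hy'
  have hRyy' : W.R y y' := by
    have := R_delta W hk y0
    rw [← hc, hy0, smul_inv_smul] at this
    exact W.R_symm this
  have hcard0 : (W.cl (W.s 0) y0).card = (W.cl (W.s 0) y).card := card_cl_L hk (inv_mem hcL) y
  have hcard' : (W.cl (W.s 2) y').card = (W.cl (W.s 0) y).card := by
    rw [hy', card_cl_smul W d0, hcard0]
  by_cases hcase : ∃ u ∈ W.cl (W.s 0) y, W.E (W.s 2) u y'
  · obtain ⟨u, hu, hE⟩ := hcase
    have e1 : W.cl (W.s 2) y' = W.cl (W.s 2) u := cl_eq A d0 hE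
    have e2 : W.cl (W.s 2) u = W.cl (W.s 0) y := by
      apply eq_of_subset_of_card_le (hsub u hu)
      rw [← e1, hcard']
    have e3 : W.E (W.s 2) u y := by
      rw [← mem_cl W, e2]
      exact hself y
    rw [cl_eq A d0 e3, e2]
  · exfalso
    push Not at hcase
    have hne : y ≠ y' := by
      intro H
      exact hcase y (hself y) (Or.inl H)
    set O := orb W.H y y' with hOdef
    have hgd : Chi.Gd W O := gd_orb _ hRyy' hne
    have hstb : W.H ≤ Chi.stb (Γ := Γ) O := le_stb_orb _ y y'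
    have hHL := H_le_L W hk
    -- windings of `s 0` and `s 2` vanish on `O`
    have hE0 : ¬ W.E (W.s 0) y y' := fun H => hcase y' ((mem_cl W).2 H) (E_refl W _ _)
    have hE2 : ¬ W.E (W.s 2) y y' := hcase y (hself y)
    have v0 : ∀ p ∈ O, W.v (W.s 0) p.1 p.2 = 0 := by
      intro p hp
      obtain ⟨g, hg, rfl⟩ := mem_orb.1 hp
      show W.v (W.s 0) (g • y) (g • y') = 0
      rw [v_smul' W (H_commute_s0 W hk hg).eq hRyy' hne]
      by_contra H
      exact hE0 (Or.inr ⟨hRyy', lt_of_le_of_ne (A.nonneg _ _ hRyy' hne) (Ne.symm H)⟩)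
    have v2 : ∀ p ∈ O, W.v (W.s 2) p.1 p.2 = 0 := by
      intro p hp
      obtain ⟨g, hg, rfl⟩ := mem_orb.1 hp
      show W.v (W.s 2) (g • y) (g • y') = 0
      rw [v_smul' W (H_commute_s2 W hk hg).eq hRyy' hne]
      by_contra H
      exact hE2 (Or.inr ⟨hRyy', lt_of_le_of_ne (s_nonneg A 2 (by omega) hRyy' hne) (Ne.symm H)⟩)
    -- `zeta'`
    have hggL := gg_mem_L W hk
    have vz' : ∀ x z : F, W.R x z → x ≠ z →
        W.v W.zeta' x z = W.v (W.T 3) (W.gg⁻¹ • x) (W.gg⁻¹ • z) - 2 * W.v (W.s 0) x z := by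
      intro x z hR hn
      have h1 : W.gg⁻¹ * W.zeta' = W.lam 2 * W.gg⁻¹ := by unfold zeta'; group
      have hn' : W.gg⁻¹ • x ≠ W.gg⁻¹ • z := fun H => hn ((MulAction.injective _) H)
      rw [← v_smul' W h1 hR hn, v_lam2 W hk (W.R_smul _ hR) hn', v_smul' W (gg0 W hk) hR hn]
    have vz'O : ∀ p ∈ O, W.v W.zeta' p.1 p.2 = W.v (W.T 3) (W.gg⁻¹ • p.1) (W.gg⁻¹ • p.2) := by
      intro p hp
      rw [vz' _ _ (hgd p hp).1 (hgd p hp).2, v0 p hp]
      ring
    have vzO : ∀ p ∈ O, W.v W.zeta p.1 p.2 =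
        W.v (W.T 3) (W.gg⁻¹ • W.delta • p.1) (W.gg⁻¹ • W.delta • p.2) := by
      intro p hp
      have hR := (hgd p hp).1
      have hn := (hgd p hp).2
      rw [← v_smul' W dz hR hn, vz' _ _ (W.R_smul _ hR) (fun H => hn ((MulAction.injective _) H)),
        v_smul' W d2 hR hn, v2 p hp]
      ring
    have T3nn : ∀ x z : F, W.R x z → x ≠ z → 0 ≤ W.v (W.T 3) x z := fun x z hR hn =>
      T_nonneg A 3 (by omega) (by omega) hR hn
    have nz' : ∀ p ∈ O, 0 ≤ W.v W.zeta' p.1 p.2 := by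
      intro p hp
      rw [vz'O p hp]
      exact T3nn _ _ (W.R_smul _ (hgd p hp).1) (fun H => (hgd p hp).2 ((MulAction.injective _) H))
    have nz : ∀ p ∈ O, 0 ≤ W.v W.zeta p.1 p.2 := by
      intro p hp
      rw [vzO p hp]
      exact T3nn _ _ (W.R_smul _ (W.R_smul _ (hgd p hp).1))
        (fun H => (hgd p hp).2 ((MulAction.injective _) ((MulAction.injective _) H)))
    -- labels
    have labs : ∀ i j : ℕ, i + 1 < k → j ≠ i → j ≠ i + 1 → W.lab (W.s i) j = j := by
      intro i j hi h1 h2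
      rw [W.lab_s i hi, Equiv.swap_apply_of_ne_of_ne h1 h2]
    have labd : ∀ j, 4 ≤ j → W.lab W.delta j = j := by
      intro j hj
      unfold delta
      simp only [map_mul, Equiv.Perm.mul_apply]
      rw [labs 1 j (by omega) (by omega) (by omega), labs 0 j (by omega) (by omega) (by omega),
        labs 2 j (by omega) (by omega) (by omega), labs 1 j (by omega) (by omega) (by omega)]
    have labc : W.lab c (l y) = l y := by
      rw [hc]
      simp only [map_mul, Equiv.Perm.mul_apply]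
      rw [labs 0 (l y) (by omega) (by omega) (by omega), labs 0 (l y) (by omega) (by omega) (by omega),
        labs 0 (l y) (by omega) (by omega) (by omega), labs 0 (l y) (by omega) (by omega) (by omega)]
    have lab_gg : W.lab (W.gg⁻¹) 4 = 2 := by
      unfold gg
      rw [inv_inv, map_mul, Equiv.Perm.mul_apply, W.lab_s 3 (by omega), W.lab_s 2 (by omega)]
      simp
    have hy0N : W.Nice y0 := Nice_L hk (inv_mem hcL) hy
    have ly0 : l y0 = l y := by
      rw [hy0, hleq _ (inv_mem hcL), map_inv, Equiv.Perm.inv_eq_iff_eq]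
      exact labc.symm
    -- label `4` implies: in `B (s 3)`
    have hB3 : ∀ z, W.Nice z → l z = 4 → z ∈ W.B (W.s 3) := by
      intro z hz hlz
      have h1 : (W.s 2 * W.s 3)⁻¹ * W.s 3 = W.s 2 * (W.s 2 * W.s 3)⁻¹ := by
        have b2 := W.braid 2 (by omega)
        simp only [show (2 : ℕ) + 1 = 3 from rfl] at b2
        rw [inv_mul_eq_iff_eq_mul, ← mul_assoc, b2]
        group
      rw [← B_smul W h1 z]
      have hmem : (W.s 2 * W.s 3)⁻¹ ∈ W.L := hggL
      obtain ⟨-, he, -, -, -⟩ := hl z hz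
      obtain ⟨-, -, -, h4, -⟩ := hl _ (Nice_L hk hmem hz)
      apply h4.2
      right
      rw [he _ hmem, hlz, map_inv, Equiv.Perm.inv_eq_iff_eq, map_mul, Equiv.Perm.mul_apply,
        W.lab_s 3 (by omega), W.lab_s 2 (by omega)]
      simp [Equiv.swap_apply_def]
    -- label `4` implies: `gg⁻¹ • z ∈ Q 3`
    have hQa : ∀ z, W.Nice z → l z = 4 → W.gg⁻¹ • z ∈ W.Q b 3 := by
      intro z hz hlz
      apply hq3 _ (Nice_L hk (inv_mem hggL) hz)
      obtain ⟨-, he, -, -, -⟩ := hl z hz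
      rw [he _ (inv_mem hggL), hlz, lab_gg]
    -- label `4` implies: `gg⁻¹ • delta • z ∈ Q 3`
    have hQb : ∀ z, W.Nice z → l z = 4 → W.gg⁻¹ • W.delta • z ∈ W.Q b 3 := by
      intro z hz hlz
      have h1 : W.gg⁻¹ * W.delta * W.s 3 = W.s 1 * (W.gg⁻¹ * W.delta) := d3
      have h2 := (B_smul W h1 z).2 (hB3 z hz hlz)
      rw [mul_smul] at h2
      have h3 : W.s 1 = (W.s 0 * W.s 1) * W.s 0 * (W.s 0 * W.s 1)⁻¹ := W.s_conj 0 (by omega)
      rw [h3] at h2
      exact hQ.2.1 _ (mul_mem (W.s_mem_Bm (by omega)) (W.s_mem_Bm (by omega))) _ h2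
    -- the first component
    have lab1 : ∀ p ∈ O, W.Nice p.1 ∧ 4 ≤ l p.1 ∧ l p.1 < k := by
      intro p hp
      obtain ⟨g, hg, rfl⟩ := mem_orb.1 hp
      have hN : W.Nice (g • y) := Nice_L hk (hHL hg) hy
      obtain ⟨⟨h1, h2⟩, -, -, h4, -⟩ := hl _ hN
      refine ⟨hN, ?_, h2⟩
      show 4 ≤ l (g • y)
      by_contra H
      apply hyB
      rw [← B_smul W (H_commute_s2 W hk hg).eq y]
      exact h4.2 (by omega)
    -- the second component
    have lab2 : ∀ p ∈ O, l p.1 = 4 → ∃ z, W.Nice z ∧ l z = 4 ∧ p.2 = W.delta • z := by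
      intro p hp hp4
      obtain ⟨g, hg, rfl⟩ := mem_orb.1 hp
      have hg' := H_delta W hk hg
      have hgL : W.delta⁻¹ * g * W.delta ∈ W.L := hHL hg'
      refine ⟨(W.delta⁻¹ * g * W.delta) • y0, Nice_L hk hgL hy0N, ?_, ?_⟩
      · obtain ⟨-, he, -, -, -⟩ := hl y0 hy0N
        rw [he _ hgL, ly0]
        have h5 : l (g • y) = W.lab g (l y) := hleq _ (hHL hg)
        have h6 : l (g • y) = 4 := hp4
        rw [map_mul, map_mul, map_inv, Equiv.Perm.mul_apply, Equiv.Perm.mul_apply, labd _ hly, ← h5, h6,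
          Equiv.Perm.inv_eq_iff_eq]
        exact (labd 4 le_rfl).symm
      · show g • y' = _
        rw [hy']
        simp only [← mul_smul]
        congr 1
        group
    have hddL := dsq_mem_H W hk
    have labdd : W.lab (W.delta * W.delta) 4 = 4 := by
      rw [map_mul, Equiv.Perm.mul_apply, labd 4 le_rfl, labd 4 le_rfl]
    have bz' : ∀ p ∈ O, l p.1 = 4 → b ≤ W.v W.zeta' p.1 p.2 := by
      intro p hp hp4
      rw [vz'O p hp]
      obtain ⟨z, hz, hlz, hpz⟩ := lab2 p hp hp4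
      refine hQ.2.2.1 _ _ (hQa _ (lab1 p hp).1 hp4) ?_ (W.R_smul _ (hgd p hp).1)
        (fun H => (hgd p hp).2 ((MulAction.injective _) H))
      rw [hpz]
      exact hQb z hz hlz
    have bz : ∀ p ∈ O, l p.1 = 4 → b ≤ W.v W.zeta p.1 p.2 := by
      intro p hp hp4
      rw [vzO p hp]
      obtain ⟨z, hz, hlz, hpz⟩ := lab2 p hp hp4
      refine hQ.2.2.1 _ _ (hQb _ (lab1 p hp).1 hp4) ?_ (W.R_smul _ (W.R_smul _ (hgd p hp).1))
        (fun H => (hgd p hp).2 ((MulAction.injective _) ((MulAction.injective _) H)))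
      rw [hpz, ← mul_smul W.delta W.delta]
      apply hQa _ (Nice_L hk (hHL hddL) hz)
      obtain ⟨-, he, -, -, -⟩ := hl z hz
      rw [he _ (hHL hddL), hlz, labdd]
    -- counting
    set n : ℕ → ℕ := fun i => (O.filter fun p => l p.1 = i).card with hn
    have hmono : ∀ i, 4 ≤ i → i + 1 < k → n (i + 1) ≤ n i := by
      intro i hi hik
      apply card_le_card_of_injOn (fun p => W.s i • p)
      · intro p hp
        simp only [coe_filter, Set.mem_ofPred_eq] at hp ⊢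
        refine ⟨smul_mem_orb (s_mem_H W hi hik) hp.1, ?_⟩
        obtain ⟨-, he, -, -, -⟩ := hl _ (lab1 p hp.1).1
        show l (W.s i • p.1) = i
        rw [he _ (W.s_mem_L (by omega) hik), hp.2, W.lab_s i hik, Equiv.swap_apply_right]
      · exact (MulAction.injective (W.s i)).injOn
    have hn4 : ∀ i, 4 ≤ i → i < k → n i ≤ n 4 := by
      intro i hi
      induction i, hi using Nat.le_induction with
      | base => exact fun _ => le_rfl
      | succ i hi ih => exact fun hik => (hmono i hi hik).trans (ih (by omega))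
    have hcount : O.card ≤ (k - 4) * n 4 := by
      have h1 : O.card = ∑ i ∈ Ico 4 k, n i := by
        apply card_eq_sum_card_fiberwise
        intro p hp
        have := lab1 p hp
        simp only [coe_Ico, Set.mem_Ico]
        exact ⟨this.2.1, this.2.2⟩
      rw [h1]
      calc ∑ i ∈ Ico 4 k, n i ≤ ∑ _i ∈ Ico 4 k, n 4 :=
            sum_le_sum fun i hi => hn4 i (mem_Ico.1 hi).1 (mem_Ico.1 hi).2
        _ = (k - 4) * n 4 := by simp
    have hlow : ∀ g : Γ, (∀ p ∈ O, 0 ≤ W.v g p.1 p.2) → (∀ p ∈ O, l p.1 = 4 → b ≤ W.v g p.1 p.2) →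
        b * n 4 ≤ Chi.chi W O g := by
      intro g h1 h2
      unfold Chi.chi
      calc b * n 4 = ∑ p ∈ O.filter (fun p => l p.1 = 4), b := by simp [hn, mul_comm]
        _ ≤ ∑ p ∈ O.filter (fun p => l p.1 = 4), W.v g p.1 p.2 :=
            sum_le_sum fun p hp => h2 p (mem_filter.1 hp).1 (mem_filter.1 hp).2
        _ ≤ ∑ p ∈ O, W.v g p.1 p.2 :=
            sum_le_sum_of_subset_of_nonneg (filter_subset _ _) fun p hp _ => h1 p hp
    have l1 := hlow _ nz' bz'
    have l2 := hlow _ nz bz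
    have hchi := Chi.chi_H hgd hstb k (by omega) le_rfl
    have htot : Chi.chi W O (W.T k) = O.card * b := by
      unfold Chi.chi
      rw [sum_congr rfl fun p hp => A.all p.1 p.2 (hgd p hp).1 (hgd p hp).2]
      simp
    have t4 : 0 ≤ Chi.chi W O (W.T 4) :=
      sum_nonneg fun p hp => T_nonneg A 4 (by omega) (by omega) (hgd p hp).1 (hgd p hp).2
    have hk4 : (1 : ℝ) ≤ (k : ℝ) - 4 := by
      have : (5 : ℝ) ≤ k := by exact_mod_cast hk
      linarith
    have s4 : 0 ≤ ((k : ℝ) - 4) * ((k : ℝ) - 5) * Chi.chi W O (W.s 4) := by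
      rcases Nat.eq_or_lt_of_le hk with h5 | h5
      · have h6 : (k : ℝ) - 5 = 0 := by
          have : (5 : ℝ) = k := by exact_mod_cast h5
          linarith
        rw [h6]
        simp
      · have h6 : (0 : ℝ) ≤ (k : ℝ) - 5 := by
          have : (5 : ℝ) ≤ k := by exact_mod_cast hk
          linarith
        have h7 : 0 ≤ Chi.chi W O (W.s 4) :=
          sum_nonneg fun p hp => s_nonneg A 4 (by omega) (hgd p hp).1 (hgd p hp).2
        positivity
    have hcR : (O.card : ℝ) ≤ ((k : ℝ) - 4) * n 4 := by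
      have h8 : ((k - 4 : ℕ) : ℝ) = (k : ℝ) - 4 := by
        rw [Nat.cast_sub (by omega)]
        norm_num
      rw [← h8]
      exact_mod_cast hcount
    have hOpos : (0 : ℝ) < O.card := by
      have : 0 < O.card := card_pos.2 ⟨(y, y'), mem_orb.2 ⟨1, one_mem _, by simp⟩⟩
      exact_mod_cast this
    rw [htot] at hchi
    have h9 : ((k : ℝ) - 4) * (2 * (b * n 4)) ≤
        ((k : ℝ) - 4) * (Chi.chi W O W.zeta + Chi.chi W O W.zeta') := by
      apply mul_le_mul_of_nonneg_left _ (by linarith)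
      linarith
    have h10 : b * O.card ≤ b * (((k : ℝ) - 4) * n 4) := mul_le_mul_of_nonneg_left hcR hb.le
    have h11 : 0 < b * O.card := mul_pos hb hOpos
    nlinarith

/-- NE in the form of the convention. -/
theorem NE_of [Fintype F] {W : WSys k Γ F} {b : ℝ} (A : W.Ax b) (_hb : 0 < b) (l : F → ℕ) (hl : W.Lab b l)
    (h9 : W.SG9 l) : W.SNE := NE A l hl h9

end WSys

end LN6
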