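import Pool.Agent.Helper1.LN6.Pre

/-!
LN6, leaf NE (memo section 5): every element lies in a largest class of `s 0` or in a nice class.
-/

open scoped Classical
open Finset

namespace LN6

namespace WSys

variable {k : ℕ} {Γ F : Type} [Group Γ] [MulAction Γ F]

namespace H1

theorem delta_s0 (W : WSys k Γ F) (hk : 5 ≤ k) : W.delta * W.s 0 = W.s 2 * W.delta := by
  have b0 := W.braid 0 (by omega)
  have b1 := W.braid 1 (by omega)
  simp only [zero_add, show (1 : ℕ) + 1 = 2 from rfl] at b0 b1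
  unfold delta
  calc W.s 1 * W.s 2 * W.s 0 * W.s 1 * W.s 0 = W.s 1 * W.s 2 * (W.s 0 * W.s 1 * W.s 0) := by group
    _ = W.s 1 * W.s 2 * (W.s 1 * W.s 0 * W.s 1) := by rw [b0]
    _ = (W.s 1 * W.s 2 * W.s 1) * (W.s 0 * W.s 1) := by group
    _ = (W.s 2 * W.s 1 * W.s 2) * (W.s 0 * W.s 1) := by rw [b1]
    _ = _ := by group

theorem delta_s2 (W : WSys k Γ F) (hk : 5 ≤ k) : W.delta * W.s 2 = W.s 0 * W.delta := by
  have b0 := W.braid 0 (by omega)
  have b1 := W.braid 1 (by omega)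
  have c := W.comm 0 2 le_rfl (by omega)
  simp only [zero_add, show (1 : ℕ) + 1 = 2 from rfl] at b0 b1
  unfold delta
  calc W.s 1 * W.s 2 * W.s 0 * W.s 1 * W.s 2 = W.s 1 * (W.s 2 * W.s 0) * W.s 1 * W.s 2 := by group
    _ = W.s 1 * (W.s 0 * W.s 2) * W.s 1 * W.s 2 := by rw [c]
    _ = W.s 1 * W.s 0 * (W.s 2 * W.s 1 * W.s 2) := by group
    _ = W.s 1 * W.s 0 * (W.s 1 * W.s 2 * W.s 1) := by rw [b1]
    _ = (W.s 1 * W.s 0 * W.s 1) * W.s 2 * W.s 1 := by group
    _ = (W.s 0 * W.s 1 * W.s 0) * W.s 2 * W.s 1 := by rw [b0]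
    _ = W.s 0 * W.s 1 * (W.s 0 * W.s 2) * W.s 1 := by group
    _ = W.s 0 * W.s 1 * (W.s 2 * W.s 0) * W.s 1 := by rw [c]
    _ = _ := by group

/-- `s 2` is conjugate to `s 0`. -/
theorem s2_conj (W : WSys k Γ F) (hk : 5 ≤ k) : W.delta * W.s 0 = W.s 2 * W.delta := delta_s0 W hk

section
variable [Fintype F]

theorem B_L {W : WSys k Γ F} (hk : 5 ≤ k) {g : Γ} (hg : g ∈ W.L) (x : F) :
    g • x ∈ W.B (W.s 0) ↔ x ∈ W.B (W.s 0) :=
  B_smul W (W.L_commute_s0 (by omega) hg).eq x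

theorem card_cl_L {W : WSys k Γ F} (hk : 5 ≤ k) {g : Γ} (hg : g ∈ W.L) (x : F) :
    (W.cl (W.s 0) (g • x)).card = (W.cl (W.s 0) x).card :=
  card_cl_smul W (W.L_commute_s0 (by omega) hg).eq x

theorem Nice_L {W : WSys k Γ F} (hk : 5 ≤ k) {g : Γ} (hg : g ∈ W.L) {x : F} (hx : W.Nice x) :
    W.Nice (g • x) := by
  refine ⟨fun H => hx.1 ((B_L hk hg x).1 H), fun g' hg' => ?_⟩
  rw [← mul_smul]
  exact hx.2 _ (mul_mem hg' hg)

theorem Nice_L_iff {W : WSys k Γ F} (hk : 5 ≤ k) {g : Γ} (hg : g ∈ W.L) {x : F} :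
    W.Nice (g • x) ↔ W.Nice x := by
  refine ⟨fun H => ?_, fun H => Nice_L hk hg H⟩
  have := Nice_L hk (inv_mem hg) H
  simpa using this

end

end H1

open H1 in
theorem NE [Fintype F] {W : WSys k Γ F} {b : ℝ} (A : W.Ax b) (l : F → ℕ) (hl : W.Lab b l) (h9 : W.SG9 l) :
    W.SNE := by
  have hk : 5 ≤ k := A.k5
  have d0 := delta_s0 W hk
  have d2 := delta_s2 W hk
  have i0 : W.delta⁻¹ * W.s 2 = W.s 0 * W.delta⁻¹ := by
    rw [inv_mul_eq_iff_eq_mul, ← mul_assoc, d0]
    group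
  have i2 : W.delta⁻¹ * W.s 0 = W.s 2 * W.delta⁻¹ := by
    rw [inv_mul_eq_iff_eq_mul, ← mul_assoc, d2]
    group
  by_contra hcon
  unfold SNE at hcon
  push Not at hcon
  -- a bad element whose class is as large as possible
  let S : Finset F := univ.filter fun x => x ∉ W.B (W.s 0) ∧ ¬ W.Nice x
  have hS : S.Nonempty := by
    obtain ⟨x, h1, h2⟩ := hcon
    exact ⟨x, by simp [S, h1, h2]⟩
  obtain ⟨x0, hx0, hmax⟩ := S.exists_max_image (fun x => (W.cl (W.s 0) x).card) hS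
  have hx0' : x0 ∉ W.B (W.s 0) ∧ ¬ W.Nice x0 := by simpa [S] using hx0
  apply hx0'.2
  refine ⟨hx0'.1, fun g hg => ?_⟩
  -- from now on `x = g • x0`
  set x := g • x0 with hx
  have hxB : x ∉ W.B (W.s 0) := fun H => hx0'.1 ((B_L hk hg x0).1 H)
  have hmax' : ∀ y, y ∉ W.B (W.s 0) → ¬ W.Nice y → (W.cl (W.s 0) y).card ≤ (W.cl (W.s 0) x).card := by
    intro y h1 h2
    rw [hx, card_cl_L hk hg]
    exact hmax y (by simp [S, h1, h2])
  have hcls : ∀ u ∈ W.cl (W.s 0) x, W.cl (W.s 0) u = W.cl (W.s 0) x := fun u hu =>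
    cl_eq A (g := 1) (by group) ((mem_cl W).1 hu)
  have huB : ∀ u ∈ W.cl (W.s 0) x, u ∉ W.B (W.s 0) := fun u hu H =>
    hxB ((B_cl A (g := 1) (h := W.s 0) (by group) ((mem_cl W).1 hu)).1 H)
  by_cases hc : ∃ w ∈ W.cl (W.s 0) x, ∃ z, W.R w z ∧ z ∉ W.cl (W.s 0) x ∧ W.v (W.s 2) w z ≠ 0
  · left
    obtain ⟨w, hw, z, hR, hz, hv⟩ := hc
    have hwz : w ≠ z := fun H => hz (H ▸ hw)
    -- `0 < v (s 2) w z`
    have hvpos : 0 < W.v (W.s 2) w z := by
      have hnn : 0 ≤ W.v (W.s 2) w z := by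
        have h2 : W.s 2 = W.delta * W.s 0 * W.delta⁻¹ := by rw [d0]; group
        have hR' : W.R (W.delta⁻¹ • w) (W.delta⁻¹ • z) := W.R_smul _ hR
        have hne' : W.delta⁻¹ • w ≠ W.delta⁻¹ • z := fun H => hwz ((MulAction.injective _) H)
        have := W.v_conj (W.s 0) W.delta (W.delta⁻¹ • w) (W.delta⁻¹ • z) hR' hne'
        rw [← h2] at this
        simp only [smul_inv_smul] at this
        rw [this]
        exact A.nonneg _ _ hR' hne'
      exact lt_of_le_of_ne hnn (Ne.symm hv)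
    -- the class of `w` under `s 2` contains the class of `x` and `z`
    have hv0 : W.v (W.s 0) w z = 0 := by
      by_contra H
      have h1 : 0 < W.v (W.s 0) w z := lt_of_le_of_ne (A.nonneg _ _ hR hwz) (Ne.symm H)
      apply hz
      rw [← hcls w hw, mem_cl]
      exact Or.inr ⟨hR, h1⟩
    have hsub : ∀ u ∈ W.cl (W.s 0) x, W.E (W.s 2) w u := by
      intro u hu
      by_cases huw : w = u
      · exact Or.inl huw
      rw [← hcls w hw, mem_cl] at hu
      rcases hu with h1 | ⟨h1, h2⟩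
      · exact absurd h1 huw
      have huz : u ≠ z := by
        rintro rfl
        rw [hv0] at h2
        exact lt_irrefl _ h2
      have hcor := A.corner w u z h1 hR huw hwz huz
      refine Or.inr ⟨h1, ?_⟩
      rw [hv0, sub_zero] at hcor
      by_contra H
      have h3 : W.v (W.s 2) w u - W.v (W.s 2) w z < 0 := by linarith
      nlinarith
    have hlt : (W.cl (W.s 0) x).card < (W.cl (W.s 2) w).card := by
      apply card_lt_card
      rw [ssubset_iff_of_subset (fun u hu => (mem_cl W).2 (hsub u hu))]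
      exact ⟨z, (mem_cl W).2 (Or.inr ⟨hR, hvpos⟩), hz⟩
    have hcard : (W.cl (W.s 0) (W.delta⁻¹ • w)).card = (W.cl (W.s 2) w).card :=
      card_cl_smul W i0 w
    have key : W.delta⁻¹ • w ∈ W.B (W.s 0) := by
      by_contra hyB
      have hyN : W.Nice (W.delta⁻¹ • w) := by
        by_contra hyN
        have := hmax' _ hyB hyN
        omega
      obtain ⟨⟨hl1, hl2⟩, -, -, hl4, -⟩ := hl _ hyN
      have hy2 : W.delta⁻¹ • w ∉ W.B (W.s 2) := by
        rw [B_smul W i2]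
        exact huB w hw
      have hlab : 4 ≤ l (W.delta⁻¹ • w) := by
        by_contra H
        exact hy2 (hl4.2 (by omega))
      have h9' := h9 _ hyN hlab
      have e1 : (W.cl (W.s 2) (W.delta⁻¹ • w)).card = (W.cl (W.s 0) w).card := card_cl_smul W i2 w
      rw [h9', hcard, hcls w hw] at e1
      omega
    rw [B_smul W i0] at key
    intro u hu
    exact (B_cl A (h := W.s 2) d0 (hsub u hu)).2 key
  · right
    push Not at hc
    refine ⟨fun u hu huB2 => ?_, fun u hu z hR hz => hc u hu z hR hz⟩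
    -- the class of `u` under `s 2` is inside the class of `x`
    have hsub : W.cl (W.s 2) u ⊆ W.cl (W.s 0) x := by
      intro z hz
      by_contra H
      rcases (mem_cl W).1 hz with rfl | ⟨h1, h2⟩
      · exact H hu
      · have := hc u hu z h1 H
        rw [this] at h2
        exact lt_irrefl _ h2
    have h1 : (W.cl (W.s 2) u).card = W.r := huB2
    have h2 := card_le_card hsub
    have h3 := card_cl0_le W x
    exact hxB (show (W.cl (W.s 0) x).card = W.r by omega)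

end WSys

end LN6
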