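import Pool.Agent.Helper91.LN6.Braid

/-!
LN6: small base lemmas used by the leaves `G9` and `NE` (class relation, equivariance).
-/

open scoped Classical
open Finset

namespace LN6

namespace WSys

variable {k : ℕ} {Γ F : Type} [Group Γ] [MulAction Γ F]

namespace H1

theorem E_refl (W : WSys k Γ F) (h : Γ) (x : F) : W.E h x x := Or.inl rfl

theorem E_symm (W : WSys k Γ F) {h : Γ} {x y : F} (hxy : W.E h x y) : W.E h y x := by
  rcases hxy with rfl | ⟨h1, h2⟩
  · exact Or.inl rfl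
  · exact Or.inr ⟨W.R_symm h1, by rw [W.v_symm]; exact h2⟩

theorem E_R (W : WSys k Γ F) {h : Γ} {x y : F} (hxy : W.E h x y) : W.R x y := by
  rcases hxy with rfl | ⟨h1, h2⟩
  · exact W.R_refl x
  · exact h1

theorem E_smul (W : WSys k Γ F) (g : Γ) {h : Γ} {x y : F} (hxy : W.E h x y) :
    W.E (g * h * g⁻¹) (g • x) (g • y) := by
  by_cases hne : x = y
  · exact Or.inl (by rw [hne])
  · rcases hxy with h0 | ⟨h1, h2⟩
    · exact absurd h0 hne
    · exact Or.inr ⟨W.R_smul g h1, by rw [W.v_conj h g x y h1 hne]; exact h2⟩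

theorem E_smul_iff (W : WSys k Γ F) (g h : Γ) (x y : F) :
    W.E (g * h * g⁻¹) (g • x) (g • y) ↔ W.E h x y := by
  refine ⟨fun H => ?_, fun H => E_smul W g H⟩
  have := E_smul W g⁻¹ H
  simpa [mul_assoc] using this

/-- the conjugated form: `h' = g h g⁻¹`. -/
theorem E_smul_iff' (W : WSys k Γ F) {g h h' : Γ} (hh : g * h = h' * g) (x y : F) :
    W.E h' (g • x) (g • y) ↔ W.E h x y := by
  have : h' = g * h * g⁻¹ := by rw [hh]; group
  rw [this]
  exact E_smul_iff W g h x y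

theorem v_T2 (W : WSys k Γ F) {x y : F} (hR : W.R x y) (hne : x ≠ y) :
    W.v (W.T 2) x y = 2 * W.v (W.s 0) x y := by
  have h : W.T 2 = W.s 0 * W.s 0 := one_mul _
  rw [h, W.v_mul _ _ x y hR hne rfl]
  ring

theorem E_trans0 {W : WSys k Γ F} {b : ℝ} (A : W.Ax b) {x y z : F} (h1 : W.E (W.s 0) x y)
    (h2 : W.E (W.s 0) y z) : W.E (W.s 0) x z := by
  by_cases hxz : x = z
  · exact Or.inl hxz
  rcases h1 with rfl | ⟨r1, p1⟩
  · exact h2
  rcases h2 with rfl | ⟨r2, p2⟩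
  · exact Or.inr ⟨r1, p1⟩
  by_cases hxy : x = y
  · subst hxy; exact Or.inr ⟨r2, p2⟩
  by_cases hyz : y = z
  · subst hyz; exact Or.inr ⟨r1, p1⟩
  have hR : W.R x z := W.R_trans r1 r2
  refine Or.inr ⟨hR, ?_⟩
  have hk := A.k5
  have := A.ultra 2 le_rfl (by omega) x y z r1 r2 hxy hyz hxz
  rw [v_T2 W r1 hxy, v_T2 W r2 hyz, v_T2 W hR hxz] at this
  have h3 : 0 < min (2 * W.v (W.s 0) x y) (2 * W.v (W.s 0) y z) := lt_min (by linarith) (by linarith)
  linarith

/-- transitivity for a conjugate `h` of `s 0`. -/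
theorem E_trans {W : WSys k Γ F} {b : ℝ} (A : W.Ax b) {g h : Γ} (hh : g * W.s 0 = h * g) {x y z : F}
    (h1 : W.E h x y) (h2 : W.E h y z) : W.E h x z := by
  have hx : x = g • (g⁻¹ • x) := by simp
  have hy : y = g • (g⁻¹ • y) := by simp
  have hz : z = g • (g⁻¹ • z) := by simp
  rw [hx, hy, E_smul_iff' W hh] at h1
  rw [hy, hz, E_smul_iff' W hh] at h2
  rw [hx, hz, E_smul_iff' W hh]
  exact E_trans0 A h1 h2

section
variable [Fintype F]

theorem mem_cl (W : WSys k Γ F) {h : Γ} {x y : F} : y ∈ W.cl h x ↔ W.E h x y := by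
  simp [cl]

theorem cl_smul (W : WSys k Γ F) {g h h' : Γ} (hh : g * h = h' * g) (x : F) :
    W.cl h' (g • x) = (W.cl h x).image (fun y => g • y) := by
  ext y
  rw [mem_cl, mem_image]
  constructor
  · intro H
    refine ⟨g⁻¹ • y, ?_, by simp⟩
    rw [mem_cl]
    rw [← E_smul_iff' W hh]
    simpa using H
  · rintro ⟨z, hz, rfl⟩
    rw [mem_cl] at hz
    exact (E_smul_iff' W hh x z).2 hz

theorem card_cl_smul (W : WSys k Γ F) {g h h' : Γ} (hh : g * h = h' * g) (x : F) :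
    (W.cl h' (g • x)).card = (W.cl h x).card := by
  rw [cl_smul W hh, card_image_of_injective _ (MulAction.injective g)]

theorem B_smul (W : WSys k Γ F) {g h h' : Γ} (hh : g * h = h' * g) (x : F) :
    g • x ∈ W.B h' ↔ x ∈ W.B h := by
  simp only [B, Set.mem_ofPred_eq]
  rw [card_cl_smul W hh]

theorem card_cl0_le (W : WSys k Γ F) (x : F) : (W.cl (W.s 0) x).card ≤ W.r :=
  Finset.le_sup (f := fun x => (W.cl (W.s 0) x).card) (mem_univ x)

theorem cl_eq {W : WSys k Γ F} {b : ℝ} (A : W.Ax b) {g h : Γ} (hh : g * W.s 0 = h * g) {x y : F}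
    (hxy : W.E h x y) : W.cl h y = W.cl h x := by
  ext z
  rw [mem_cl, mem_cl]
  exact ⟨fun H => E_trans A hh hxy H, fun H => E_trans A hh (E_symm W hxy) H⟩

theorem B_cl {W : WSys k Γ F} {b : ℝ} (A : W.Ax b) {g h : Γ} (hh : g * W.s 0 = h * g) {x y : F}
    (hxy : W.E h x y) : y ∈ W.B h ↔ x ∈ W.B h := by
  simp only [B, Set.mem_ofPred_eq]
  rw [cl_eq A hh hxy]

end

end H1

end WSys

end LN6
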